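import Pool.Agent.H143R3.BT.FinS
import Pool.Agent.Helper923.BT.M
import Pool.Agent.H405R3.BT.I
import Pool.Agent.H826R3.BT.R1
import Pool.Agent.H201R3.BT.R2
import Pool.Agent.H87R3.BT.C
import Pool.Agent.H608R3.BTLow
import Pool.Agent.H358R3.BT.UpFinal
import Pool.Agent.H920R3.BT.Gibbs
import Pool.Agent.H719R4.BT.Step
import Pool.Agent.H460U3.BT_Rec
import Pool.Agent.H339R3.BT.V1
import Pool.Agent.H612K.BT.V2
import Pool.Agent.H195R3.BT.V3

/-!
# Brownian motion surviving among moving traps in dimension one: the critical exponent is `1/3`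

Definitions used (in `Pool/Agent/H143R3/BT/Stmts.lean`, `Surv.lean` and `FinS.lean`):

* `IsBM P X`: `X` is a standard Brownian motion on `ℝ` started at `0` (almost surely continuous
  paths and `X 0 = 0`, independent increments, `X t - X s` has law `N(0, t - s)`).
* `IsPPP P lam x`: the points `x 0, x 1, …` form a Poisson point process of intensity `lam`: the
  number of points in a Borel set of finite length is Poisson with mean `lam * length`, and the
  numbers of points in disjoint such sets are independent.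
* `TrapModel P lam X x Y`: the particle `X`, the initial trap points `x i` and the motions `Y i` of
  the traps; `X` and the `Y i` are Brownian motions, everything is independent.
* `trapField a x Y s`: the trap field `K_s`, the union of the intervals `[x i + Y i s ± a]`.
* `range X s`: the range `R_s = {X u : u ≤ s}`.
* `trapTime a X x Y`: `T = inf {s : R_s ∩ K_s ≠ ∅}`, and `surv a X x Y t = {T > t}`.
* `disp X t`: the maximal displacement `max (sup_{s ≤ t} X s) (- inf_{s ≤ t} X s)`.
* `critExp P a X x Y`: the infimum of all `α > 0` such that for some `c > 0` the conditional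
  probability of `disp X t < c t^α` given `T > t` tends to `1`.
-/

namespace Pool.Agent.Results.MP_b41181_pr.CriticalExponent

open MeasureTheory ProbabilityTheory Filter Topology
open scoped ENNReal NNReal
open Pool.Agent.H143R3.BT Pool.Agent.H143R3.BT.FinS

universe u

/-- For all `lam, a > 0`: the survival probability is positive; given survival up to time `t` the
maximal displacement is at least `r t^(1/3) log t` with probability at most `C / r`, for all large
`t` and all `r > 0`; for `α < 1/3` the probability that it is smaller than `c t^α` tends to `0`;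
the critical exponent is `1/3`. -/
theorem result {lam : ℝ≥0} {a : ℝ} (hlam : 0 < lam) (ha : 0 < a)
    {Ω : Type u} [MeasurableSpace Ω] {P : Measure Ω} [IsProbabilityMeasure P]
    {X : ℝ≥0 → Ω → ℝ} {x : ℕ → Ω → ℝ} {Y : ℕ → ℝ≥0 → Ω → ℝ} (hM : TrapModel P lam X x Y) :
    (∀ t : ℝ≥0, 0 < P (surv a X x Y t)) ∧
    (∃ C : ℝ, 0 < C ∧ ∀ᶠ t : ℝ≥0 in atTop, ∀ r : ℝ, 0 < r →
      (ProbabilityTheory.cond P (surv a X x Y t))
        {ω | r * ((t : ℝ) ^ (1 / 3 : ℝ) * Real.log t) ≤ disp X t ω} ≤ ENNReal.ofReal (C / r)) ∧
    (∀ α : ℝ, α < 1 / 3 → ∀ c : ℝ, Tendsto (fun t : ℝ≥0 =>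
      (ProbabilityTheory.cond P (surv a X x Y t)) {ω | disp X t ω < c * (t : ℝ) ^ α})
        atTop (𝓝 0)) ∧
    critExp P a X x Y = 1 / 3 := by
  have m : TaskM.{u} := Pool.Agent.Helper923.BT.taskM
  have i : TaskI.{u} := Pool.Agent.H405R3.BT.taskI
  have c : TaskC.{u} := Pool.Agent.H87R3.BT.taskC
  have l : LStmt.{u} := Pool.Agent.H608R3.BTLow.taskLow m i Pool.Agent.H826R3.BT.taskR1
  have hup : UStmt.{u} :=
    Pool.Agent.H358R3.BT.taskUp m i Pool.Agent.H201R3.BTR2.taskR2
  have s : StepStmt.{u, u} :=
    Pool.Agent.H719R4.BT.taskStep m m i c l hup Pool.Agent.H920R3.BT.Gibbs.taskGibbs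
  have hrec : RecStmt.{u, u} := Pool.Agent.H460U3.BTRec.taskRec m m s
  have v : VStmt.{u, u} :=
    Pool.Agent.H195R3.BTV3.taskV3 m m (Pool.Agent.H612K.BT.taskV2 Pool.Agent.H339R3.BT.V1.taskV1)
  exact finS m c hup hrec v Ω P lam X x Y a hlam ha hM

end Pool.Agent.Results.MP_b41181_pr.CriticalExponent
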